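import Mathlib
import Pool.Agent.H766R2.BergFinal

/-!
# MP_b1555f_an, Q1: zeros of the Bergman polynomials of the regular triangle and of the square

For `N = 3, 4` all zeros of the reduced polynomials `q_{j,k}` are real, simple, lie in `(0,1)`,
and the zeros of `q_{j,k}` and `q_{j+1,k}` strictly interlace.
-/

open Polynomial Finset MeasureTheory

namespace Pool.Agent.Results.MP_b1555f_an.Interlacing

/-- The open regular `N`-gon whose vertices are the `N`-th roots of unity. -/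
def regularPolygon (N : ℕ) : Set ℂ := interior (convexHull ℝ {z : ℂ | z ^ N = 1})

/-- The Bergman inner product `⟨p,q⟩ = ∬ p(z) conj(q(z)) dA(z)` over the open regular `N`-gon. -/
noncomputable def bergmanInner (N : ℕ) (p q : ℂ[X]) : ℂ :=
  ∫ z in regularPolygon N, p.eval z * (starRingEnd ℂ) (q.eval z)

/-- `p 0, p 1, …` is the system of orthonormal polynomials with positive leading coefficients
(the one produced by Gram–Schmidt from `1, z, z², …`). -/
structure IsBergmanSystem (N : ℕ) (p : ℕ → ℂ[X]) : Prop where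
  natDegree_eq : ∀ m, (p m).natDegree = m
  leading_pos : ∀ m, (p m).leadingCoeff.im = 0 ∧ 0 < (p m).leadingCoeff.re
  orthonormal : ∀ m l, bergmanInner N (p m) (p l) = if m = l then 1 else 0

theorem result (N : ℕ) (hN : N = 3 ∨ N = 4) :
    (∃ p : ℕ → ℂ[X], IsBergmanSystem N p) ∧
    ∀ p : ℕ → ℂ[X], IsBergmanSystem N p → ∀ k < N,
      ∃ (q : ℕ → ℝ[X]) (t : ℕ → ℕ → ℝ),
        (∀ j, (q j).natDegree = j) ∧
        (∀ j, p (j * N + k) = X ^ k * ((q j).map (algebraMap ℝ ℂ)).comp (X ^ N)) ∧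
        (∀ j, q j = C (q j).leadingCoeff * ∏ ν ∈ range j, (X - C (t j ν))) ∧
        (∀ j ν, ν + 1 < j → t j ν < t j (ν + 1)) ∧
        ∀ j, 1 ≤ j → ∀ ν < j,
          0 < t (j + 1) ν ∧ t (j + 1) ν < t j ν ∧ t j ν < t (j + 1) (ν + 1) ∧ t (j + 1) (ν + 1) < 1 := by
  have key : ∀ ω : ℂ, H766R2.Berg.Good N ω →
      (∃ p : ℕ → ℂ[X], IsBergmanSystem N p) ∧
      ∀ p : ℕ → ℂ[X], IsBergmanSystem N p → ∀ k < N,
      ∃ (q : ℕ → ℝ[X]) (t : ℕ → ℕ → ℝ),
        (∀ j, (q j).natDegree = j) ∧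
        (∀ j, p (j * N + k) = X ^ k * ((q j).map (algebraMap ℝ ℂ)).comp (X ^ N)) ∧
        (∀ j, q j = C (q j).leadingCoeff * ∏ ν ∈ range j, (X - C (t j ν))) ∧
        (∀ j ν, ν + 1 < j → t j ν < t j (ν + 1)) ∧
        ∀ j, 1 ≤ j → ∀ ν < j,
          0 < t (j + 1) ν ∧ t (j + 1) ν < t j ν ∧ t j ν < t (j + 1) (ν + 1) ∧ t (j + 1) (ν + 1) < 1 := by
    intro ω h
    constructor
    · obtain ⟨p, hp⟩ := H766R2.Berg.exists_system h
      exact ⟨p, hp.natDegree_eq, hp.leading_pos, hp.orthonormal⟩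
    · intro p hp k hk
      obtain ⟨q, t, h1, h2, h3, h4⟩ := H766R2.Berg.main h (p := p)
        ⟨hp.natDegree_eq, hp.leading_pos, hp.orthonormal⟩ hk
      refine ⟨q, t, h1, h2, h3, ?_, fun j _ => h4 j⟩
      intro j ν hν
      obtain ⟨_, _, a, _⟩ := h4 j ν (by omega)
      obtain ⟨_, b, _, _⟩ := h4 j (ν + 1) hν
      exact a.trans b
  rcases hN with rfl | rfl
  · exact key _ H766R2.Berg.good3
  · exact key _ H766R2.Berg.good4

end Pool.Agent.Results.MP_b1555f_an.Interlacing
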